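import Pool.Agent.Q110.BS.Main

/-!
# Bounded induced saturation for unions of chains of unequal lengths (MP_80cf42_co, Q1)

For all positive chain lengths `i 0, …, i (m - 1)` which are not all equal there is a constant `C` such that
for every `n` some family of at most `C` subsets of an `n`-set is induced saturated for the disjoint
union of the chains.

Proof. A family of boundedly many sets is described by pairs `(t, 0)` (the set `t` of a bounded part
`A` of the ground set) and `(t, 2)` (the set `t` together with everything outside `A`); it is enough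
that such a family contains no copy and that every generic set `(t, 1)` completes a copy.
* Step (`Pool.Agent.Q110.BS.Str.step`): a family for the lengths `l j - 1` gives one for the lengths
  `l j`: enlarge `A` by a set `Z`, keep the small sets, add `Z` to the large sets, and add the antichain of
  all small sets with `|A| + 2` elements and all large sets with trace of size `|A| + 1`.
* Base: the remaining lengths are one chain of length one, or at least two chains of length
  `k ≥ 2` and at least one chain of length one (`Pool.Agent.Q110.BS.baseFam`).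
-/

set_option autoImplicit false

open Finset

namespace Pool.Agent.Results.MP_80cf42_co.Bounded

/-- the family `F` of subsets of an `n`-set contains an induced copy of the poset `P` -/
def HasCopy (P : Type) [PartialOrder P] {n : ℕ} (F : Finset (Finset (Fin n))) : Prop :=
  ∃ b : P → Finset (Fin n), (∀ p, b p ∈ F) ∧ ∀ p q, p ≤ q ↔ b p ⊆ b q

/-- `F` is induced `P`-saturated -/
def Saturated (P : Type) [PartialOrder P] {n : ℕ} (F : Finset (Finset (Fin n))) : Prop :=
  ¬ HasCopy P F ∧ ∀ G, G ∉ F → HasCopy P (insert G F)

/-- the induced saturation number `sat*(n, P)` -/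
noncomputable def satStar (n : ℕ) (P : Type) [PartialOrder P] : ℕ :=
  sInf {s | ∃ F : Finset (Finset (Fin n)), Saturated P F ∧ F.card = s}

/-- the disjoint union of chains with `i j` elements, with the order in which elements of different
chains are incomparable -/
abbrev Chains {m : ℕ} (i : Fin m → ℕ) : Type := Σ j : Fin m, Fin (i j)

theorem exists_enum {X : Type} [PartialOrder X] (c : Finset X) (k : ℕ) (hk : c.card = k)
    (hc : ∀ x ∈ c, ∀ y ∈ c, x ≤ y ∨ y ≤ x) :
    ∃ f : Fin k → X, (∀ a, f a ∈ c) ∧ ∀ a b, a ≤ b ↔ f a ≤ f b := by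
  classical
  let _ : LinearOrder {x // x ∈ c} :=
    { (inferInstance : PartialOrder {x // x ∈ c}) with
      le_total := fun a b => hc a.1 a.2 b.1 b.2
      toDecidableLE := Classical.decRel _ }
  have e : Fin k ≃o {x // x ∈ c} := monoEquivOfFin {x // x ∈ c} (by rw [Fintype.card_coe, hk])
  exact ⟨fun a => (e a).1, fun a => (e a).2, fun a b => (e.le_iff_le (x := a) (y := b)).symm⟩

theorem hasCopy_iff {m : ℕ} (i : Fin m → ℕ) {n : ℕ} (F : Finset (Finset (Fin n))) :
    HasCopy (Chains i) F ↔ Q110.BS.Cp i (F : Set (Finset (Fin n))) := by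
  classical
  constructor
  · rintro ⟨b, hbF, hb⟩
    have hinj : Function.Injective b := by
      intro p q hpq
      exact le_antisymm ((hb p q).2 hpq.subset) ((hb q p).2 hpq.symm.subset)
    refine ⟨fun j => univ.image (fun a : Fin (i j) => b ⟨j, a⟩), ⟨?_, ?_, ?_, ?_⟩⟩
    · intro j x hx
      rw [mem_image] at hx
      obtain ⟨a, -, rfl⟩ := hx
      exact hbF _
    · intro j
      rw [card_image_of_injective, card_univ, Fintype.card_fin]
      intro a a' h
      have := hinj h
      simpa using this
    · intro j x hx y hy
      rw [mem_image] at hx hy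
      obtain ⟨a, -, rfl⟩ := hx
      obtain ⟨a', -, rfl⟩ := hy
      rcases le_total a a' with h | h
      · left
        exact (hb _ _).1 (Sigma.mk_le_mk_iff.2 h)
      · right
        exact (hb _ _).1 (Sigma.mk_le_mk_iff.2 h)
    · intro j j' hjj x hx y hy hxy
      rw [mem_image] at hx hy
      obtain ⟨a, -, rfl⟩ := hx
      obtain ⟨a', -, rfl⟩ := hy
      have h := (hb _ _).2 hxy
      rw [Sigma.le_def] at h
      obtain ⟨h, -⟩ := h
      exact hjj h
  · rintro ⟨c, hc⟩
    have h1 := fun j => exists_enum (c j) (i j) (hc.card j) (hc.chain j)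
    choose f hf hf' using h1
    refine ⟨fun p => f p.1 p.2, fun p => hc.sub p.1 _ (hf p.1 p.2), ?_⟩
    rintro ⟨j, a⟩ ⟨j', a'⟩
    by_cases hjj : j = j'
    · subst hjj
      rw [Sigma.mk_le_mk_iff]
      exact hf' j a a'
    · constructor
      · intro h
        rw [Sigma.le_def] at h
        obtain ⟨h, -⟩ := h
        exact absurd h hjj
      · intro h
        exact absurd h (hc.inc j j' hjj _ (hf j a) _ (hf j' a'))

/-- **Q1 is true.** For all positive chain lengths which are not all equal the induced saturation number
of the disjoint union of the chains is bounded. -/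
theorem result (m : ℕ) (i : Fin m → ℕ) (hpos : ∀ j, 1 ≤ i j) (hne : ∃ a b, i a ≠ i b) :
    ∃ C : ℕ, ∀ n : ℕ,
      (∃ F : Finset (Finset (Fin n)), Saturated (Chains i) F ∧ F.card ≤ C) ∧
      satStar n (Chains i) ≤ C := by
  obtain ⟨C, hC⟩ := Q110.BS.bounded_of_str (Q110.BS.str_main hpos hne)
  refine ⟨C, fun n => ?_⟩
  obtain ⟨F, h1, h2, h3⟩ := hC n
  have hF : Saturated (Chains i) F := by
    refine ⟨fun h => h1 ((hasCopy_iff i F).1 h), fun G hG => ?_⟩
    rw [hasCopy_iff, coe_insert]
    exact h2 G hG
  have h4 : satStar n (Chains i) ≤ F.card := Nat.sInf_le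
    (show F.card ∈ {s | ∃ F : Finset (Finset (Fin n)), Saturated (Chains i) F ∧ F.card = s} from
      ⟨F, hF, rfl⟩)
  exact ⟨⟨F, hF, h3⟩, h4.trans h3⟩

end Pool.Agent.Results.MP_80cf42_co.Bounded
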